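import Pool.Agent.N389.QB.Energy
import Pool.Agent.Y426.BES.Graph

set_option autoImplicit false

/-!
# Hypergraphs over sets of cells of small boundary
-/

namespace Pool.Agent.N389.QB

open Finset Function

section free
variable {ι : Type} [DecidableEq ι] {A : ι → Type}

/-- any `e` cells of `H` together have more than `N` rows, columns and symbols -/
def Free (mul : ∀ i, A i → A i → A i) (e N : ℕ) (H : Finset (∀ i, A i × A i)) : Prop :=
  ∀ T ⊆ H, T.card = e → ∀ R C S : Finset (∀ i, A i),
    (∀ t ∈ T, (fun i => (t i).1) ∈ R ∧ (fun i => (t i).2) ∈ C ∧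
      (fun i => mul i (t i).1 (t i).2) ∈ S) → N < R.card + C.card + S.card

variable [Fintype ι] [∀ i, Fintype (A i)] [∀ i, DecidableEq (A i)]

/-- slices of free sets are free -/
theorem slice_free (mul : ∀ i, A i → A i → A i) {e N : ℕ} (H : Finset (∀ i, A i × A i))
    (hH : Free mul e N H) (J : Finset ι) (p : ∀ i, A i × A i) :
    Free (ι := J) (A := fun i : J => A i) (fun i => mul i) e N
      (univ.filter fun z : ∀ i : J, A i × A i => put J z p ∈ H) := by
  classical
  intro T hT hTe R C S hRCS
  have h1 := hH (T.image fun z => put J z p) ?_ ?_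
    (R.image fun x => put J x fun i => (p i).1)
    (C.image fun x => put J x fun i => (p i).2)
    (S.image fun x => put J x fun i => mul i (p i).1 (p i).2) ?_
  · have a1 : (R.image fun x => put J x fun i => (p i).1).card ≤ R.card := card_image_le
    have a2 : (C.image fun x => put J x fun i => (p i).2).card ≤ C.card := card_image_le
    have a3 : (S.image fun x => put J x fun i => mul i (p i).1 (p i).2).card ≤ S.card :=
      card_image_le
    omega
  · intro q hq
    obtain ⟨z, hz, rfl⟩ := mem_image.1 hq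
    exact (mem_filter.1 (hT hz)).2
  · rw [card_image_of_injective _ (put_inj J p), hTe]
  · intro q hq
    obtain ⟨z, hz, rfl⟩ := mem_image.1 hq
    obtain ⟨h2, h3, h4⟩ := hRCS z hz
    refine ⟨mem_image.2 ⟨_, h2, ?_⟩, mem_image.2 ⟨_, h3, ?_⟩, mem_image.2 ⟨_, h4, ?_⟩⟩
    · funext i
      unfold put
      split_ifs <;> rfl
    · funext i
      unfold put
      split_ifs <;> rfl
    · funext i
      unfold put
      split_ifs with hi <;> rfl

/-- free sets are small in sets of small boundary in the directions of `J` -/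
theorem free_rel [∀ i, Nonempty (A i)] (mul : ∀ i, A i → A i → A i) {e N : ℕ}
    (H F : Finset (∀ i, A i × A i)) (hH : Free mul e N H) (J : Finset ι) (η : ℝ)
    (hJ : Y426.BES.Cells (ι := J) (A := fun i : J => A i) (fun i => mul i) η e N) :
    ((H ∩ F).card : ℝ) ≤ η * F.card + ∑ i ∈ J, (lv F i : ℝ) / Fintype.card (A i × A i) := by
  classical
  refine rel F H J η fun x => ?_
  by_contra hcon
  push Not at hcon
  have hcard : (Fintype.card (∀ i : J, A i × A i) : ℝ) =
      ((∏ i : J, Fintype.card (A i) : ℕ) : ℝ) ^ 2 := by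
    rw [Fintype.card_pi]
    simp only [Fintype.card_prod, prod_mul_distrib]
    push_cast
    ring
  rw [hcard] at hcon
  obtain ⟨T, hT, hTe, R, C, S, hRCS, h⟩ := hJ _ hcon.le
  exact absurd (slice_free mul H hH J x T hT hTe R C S h) (by omega)

end free

/-- from hypergraphs to cells -/
theorem graph_rel {ι : Type} {A : ι → Type} (mul : ∀ i, A i → A i → A i)
    (r e N : ℕ) (he : 1 ≤ e) (hN : 3 ≤ N) (F : Finset (∀ i, A i × A i))
    {V : Type} [DecidableEq V] (α β γ : (∀ i, A i) → V) (G : Finset (Finset V))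
    (hG : ∀ f ∈ G, f.card = r ∧ ∃ p ∈ F, ∃ t ⊆ f, t.card = 3 ∧
      t = {α (fun i => (p i).1), β (fun i => (p i).2), γ (fun i => mul i (p i).1 (p i).2)})
    (hfree : ∀ S ⊆ G, S.card = e → N + e * (r - 3) < (S.biUnion id).card) :
    ∃ H ⊆ F, Free mul e N H ∧ G.card ≤ H.card * e := by
  classical
  have hcell : ∀ f ∈ G, ∃ p ∈ F, ∃ t ⊆ f, t.card = 3 ∧
      t = {α (fun i => (p i).1), β (fun i => (p i).2), γ (fun i => mul i (p i).1 (p i).2)} :=
    fun f hf => (hG f hf).2
  rcases G.eq_empty_or_nonempty with hG0 | ⟨f₀, hf₀⟩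
  · refine ⟨∅, empty_subset _, ?_, by simp [hG0]⟩
    intro T hT hTe
    rw [subset_empty.1 hT, card_empty] at hTe
    omega
  obtain ⟨p₀, -, -⟩ := hcell f₀ hf₀
  haveI : Nonempty (∀ i, A i × A i) := ⟨p₀⟩
  choose! κ hκF hκ using hcell
  have hbig : ∀ p, (G.filter fun f => κ f = p).card < e := by
    intro p
    by_contra hp
    push Not at hp
    obtain ⟨S, hS, hSc⟩ := exists_subset_card_eq hp
    have h0 := hfree S (fun f hf => (mem_filter.mp (hS hf)).1) hSc
    have h1 := Y426.BES.union_le S {α (fun i => (p i).1), β (fun i => (p i).2),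
      γ (fun i => mul i (p i).1 (p i).2)} r (by
        intro f hf
        obtain ⟨hfG, hfp⟩ := mem_filter.mp (hS hf)
        obtain ⟨t, ht1, ht2, ht3⟩ := hκ f hfG
        rw [hfp] at ht3
        exact ⟨(hG f hfG).1, t, ht1, ht2, by rw [ht3]⟩)
    have h2 : ({α (fun i => (p i).1), β (fun i => (p i).2),
      γ (fun i => mul i (p i).1 (p i).2)} : Finset V).card ≤ 3 := card_le_three
    rw [hSc] at h1
    omega
  refine ⟨G.image κ, ?_, ?_, ?_⟩
  · intro p hp
    obtain ⟨f, hf, rfl⟩ := mem_image.1 hp
    exact hκF f hf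
  · intro T hTH hTc R C S hT
    by_contra hRCS
    push Not at hRCS
    have hsec : ∀ t ∈ T, ∃ f ∈ G, κ f = t := fun t ht => mem_image.mp (hTH ht)
    choose! φ hφ using hsec
    have hφinj : Set.InjOn φ T := by
      intro t ht t' ht' h
      rw [← (hφ t ht).2, ← (hφ t' ht').2, h]
    have h0 := hfree (T.image φ) (by
      intro f hf
      obtain ⟨t, ht, rfl⟩ := mem_image.mp hf
      exact (hφ t ht).1) (by rw [card_image_of_injOn hφinj, hTc])
    have h1 := Y426.BES.union_le (T.image φ) (R.image α ∪ C.image β ∪ S.image γ) r (by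
        intro f hf
        obtain ⟨t, ht, rfl⟩ := mem_image.mp hf
        obtain ⟨hfG, hfp⟩ := hφ t ht
        obtain ⟨s, hs1, hs2, hs3⟩ := hκ (φ t) hfG
        rw [hfp] at hs3
        obtain ⟨hR, hC, hS⟩ := hT t ht
        refine ⟨(hG _ hfG).1, s, hs1, hs2, ?_⟩
        rw [hs3]
        intro z hz
        simp only [mem_insert, mem_singleton] at hz
        rcases hz with rfl | rfl | rfl
        · exact mem_union_left _ (mem_union_left _ (mem_image_of_mem _ hR))
        · exact mem_union_left _ (mem_union_right _ (mem_image_of_mem _ hC))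
        · exact mem_union_right _ (mem_image_of_mem _ hS))
    have h2 : (R.image α ∪ C.image β ∪ S.image γ).card ≤ N := by
      have a1 := card_union_le (R.image α ∪ C.image β) (S.image γ)
      have a2 := card_union_le (R.image α) (C.image β)
      have a3 : (R.image α).card ≤ R.card := card_image_le
      have a4 : (C.image β).card ≤ C.card := card_image_le
      have a5 : (S.image γ).card ≤ S.card := card_image_le
      omega
    rw [card_image_of_injOn hφinj, hTc] at h1
    omega
  · rw [card_eq_sum_card_image κ G, ← smul_eq_mul, ← sum_const]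
    exact sum_le_sum fun p _ => (hbig p).le

/-- **the relative theorem**: if all `M`-sets of places in `K` have the property `Cells`, then
hypergraphs over a set with small boundary in the directions of `K` are sparse -/
theorem hyper {ι : Type} [Fintype ι] [DecidableEq ι] {A : ι → Type} [∀ i, Fintype (A i)]
    [∀ i, DecidableEq (A i)] [∀ i, Nonempty (A i)] (mul : ∀ i, A i → A i → A i)
    (r e N M : ℕ) (he : 1 ≤ e) (hN : 3 ≤ N) (K : Finset ι) (hM : 0 < M) (hMK : M ≤ K.card)
    (δ : ℝ)
    (hcells : ∀ J ⊆ K, J.card = M →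
      Y426.BES.Cells (ι := J) (A := fun i : J => A i) (fun i => mul i) (δ / e / 2) e N)
    (F : Finset (∀ i, A i × A i))
    (hF : ∑ i ∈ K, (lv F i : ℝ) / Fintype.card (A i × A i) ≤ δ / e / 2 / M * K.card * F.card)
    {V : Type} [DecidableEq V] (α β γ : (∀ i, A i) → V) (G : Finset (Finset V))
    (hG : ∀ f ∈ G, f.card = r ∧ ∃ p ∈ F, ∃ t ⊆ f, t.card = 3 ∧
      t = {α (fun i => (p i).1), β (fun i => (p i).2), γ (fun i => mul i (p i).1 (p i).2)})
    (hfree : ∀ S ⊆ G, S.card = e → N + e * (r - 3) < (S.biUnion id).card) :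
    (G.card : ℝ) ≤ δ * F.card := by
  classical
  have he0 : (0 : ℝ) < e := by exact_mod_cast he
  have hM0 : (0 : ℝ) < M := by exact_mod_cast hM
  have hK0 : (0 : ℝ) < K.card := by exact_mod_cast hM.trans_le hMK
  obtain ⟨J, hJK, hJc, hJ⟩ := light (fun i => (lv F i : ℝ) / Fintype.card (A i × A i)) M K hMK
  obtain ⟨H, hHF, hH, hGH⟩ := graph_rel mul r e N he hN F α β γ G hG hfree
  have h1 := free_rel mul H F hH J (δ / e / 2) (hcells J hJK hJc)
  rw [inter_eq_left.2 hHF] at h1
  have h2 : (K.card : ℝ) * ∑ i ∈ J, (lv F i : ℝ) / Fintype.card (A i × A i) ≤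
      K.card * (δ / e / 2 * F.card) := by
    refine hJ.trans ((mul_le_mul_of_nonneg_left hF hM0.le).trans (le_of_eq ?_))
    field_simp
  have h3 := le_of_mul_le_mul_left h2 hK0
  have h4 : (H.card : ℝ) ≤ δ / e * F.card := by
    have : δ / e * F.card = δ / e / 2 * F.card + δ / e / 2 * F.card := by ring
    linarith
  have h5 : (G.card : ℝ) ≤ H.card * e := by exact_mod_cast hGH
  calc (G.card : ℝ) ≤ H.card * e := h5
    _ ≤ δ / e * F.card * e := mul_le_mul_of_nonneg_right h4 he0.le
    _ = δ * F.card := by field_simp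

end Pool.Agent.N389.QB
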