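import Mathlib

set_option autoImplicit false

/-!
# Relative density inside sets of small boundary in a product of arbitrary finite sets
-/

namespace Pool.Agent.N389.QB

open Finset Function

section swap
variable {ι : Type} [DecidableEq ι] {L : ι → Type}

/-- replace the letters at the places of `J` -/
def rep (J : Finset ι) (x y : ∀ i, L i) : ∀ i, L i := fun i => if i ∈ J then y i else x i

/-- exchange the letters at the places of `J` -/
def swp (J : Finset ι) (z : (∀ i, L i) × (∀ i, L i)) : (∀ i, L i) × (∀ i, L i) :=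
  (rep J z.1 z.2, rep J z.2 z.1)

theorem rep_rep (J : Finset ι) (x y : ∀ i, L i) : rep J (rep J x y) (rep J y x) = x := by
  funext i
  by_cases h : i ∈ J <;> simp [rep, h]

theorem swp_swp (J : Finset ι) : Involutive (swp (L := L) J) := by
  rintro ⟨x, y⟩
  exact Prod.ext (rep_rep J x y) (rep_rep J y x)

variable [Fintype ι] [∀ i, Fintype (L i)] [∀ i, DecidableEq (L i)]

/-- the number of pairs for which the change at `i` leaves `F` -/
def ch (F : Finset (∀ i, L i)) (i : ι) : ℕ :=
  (univ.filter fun z : (∀ i, L i) × (∀ i, L i) => z.1 ∈ F ∧ update z.1 i (z.2 i) ∉ F).card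

/-- telescoping -/
theorem leave_le (F : Finset (∀ i, L i)) (J : Finset ι) :
    (univ.filter fun z : (∀ i, L i) × (∀ i, L i) => z.1 ∈ F ∧ rep J z.1 z.2 ∉ F).card ≤
      ∑ i ∈ J, ch F i := by
  classical
  induction J using Finset.induction_on with
  | empty =>
    rw [sum_empty, Nat.le_zero, card_eq_zero, filter_eq_empty_iff]
    rintro ⟨x, y⟩ - ⟨h1, h2⟩
    apply h2
    have e : rep ∅ x y = x := by
      funext i
      simp [rep]
    show rep ∅ x y ∈ F
    rw [e]
    exact h1
  | insert j J hj ih =>
    rw [sum_insert hj]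
    have h1 : (univ.filter fun z : (∀ i, L i) × (∀ i, L i) =>
        z.1 ∈ F ∧ rep (insert j J) z.1 z.2 ∉ F) ⊆
        (univ.filter fun z : (∀ i, L i) × (∀ i, L i) => z.1 ∈ F ∧ rep J z.1 z.2 ∉ F) ∪
        ((univ.filter fun z : (∀ i, L i) × (∀ i, L i) =>
          z.1 ∈ F ∧ update z.1 j (z.2 j) ∉ F).image (swp J)) := by
      rintro ⟨x, y⟩ hz
      rw [mem_filter] at hz
      obtain ⟨-, h1, h2⟩ := hz
      rw [mem_union]
      by_cases h : rep J x y ∈ F
      · right
        rw [mem_image]
        refine ⟨swp J (x, y), mem_filter.2 ⟨mem_univ _, h, ?_⟩, swp_swp J _⟩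
        have e : update (rep J x y) j (rep J y x j) = rep (insert j J) x y := by
          funext i
          rcases eq_or_ne i j with rfl | hij
          · simp [rep, hj]
          · simp [rep, hij]
        show update (rep J x y) j (rep J y x j) ∉ F
        rw [e]
        exact h2
      · left
        exact mem_filter.2 ⟨mem_univ _, h1, h⟩
    refine (card_le_card h1).trans ((card_union_le _ _).trans ?_)
    have h2 : ((univ.filter fun z : (∀ i, L i) × (∀ i, L i) =>
          z.1 ∈ F ∧ update z.1 j (z.2 j) ∉ F).image (swp J)).card ≤ ch F j := card_image_le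
    omega

theorem card_fst (S : Finset (∀ i, L i)) :
    (univ.filter fun z : (∀ i, L i) × (∀ i, L i) => z.1 ∈ S).card =
      Fintype.card (∀ i, L i) * S.card := by
  have e : (univ.filter fun z : (∀ i, L i) × (∀ i, L i) => z.1 ∈ S) = S ×ˢ univ := by
    ext z
    simp
  rw [e, card_product, card_univ, mul_comm]

/-- comparison of `A ∩ F` with the words of `F` which lie in `A` after a change in `J` -/
theorem inter_le (F A : Finset (∀ i, L i)) (J : Finset ι) :
    Fintype.card (∀ i, L i) * (A ∩ F).card ≤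
      (univ.filter fun z : (∀ i, L i) × (∀ i, L i) => z.1 ∈ F ∧ rep J z.1 z.2 ∈ A).card +
        ∑ i ∈ J, ch F i := by
  classical
  rw [← card_fst]
  have h1 : (univ.filter fun z : (∀ i, L i) × (∀ i, L i) => z.1 ∈ A ∩ F) ⊆
      (univ.filter fun z : (∀ i, L i) × (∀ i, L i) => z.1 ∈ F ∧ rep J z.1 z.2 ∈ A).image
        (swp J) ∪
      (univ.filter fun z : (∀ i, L i) × (∀ i, L i) => z.1 ∈ F ∧ rep J z.1 z.2 ∉ F) := by
    rintro ⟨x, y⟩ hz
    rw [mem_filter] at hz
    obtain ⟨-, hz⟩ := hz
    have hz' := mem_inter.1 hz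
    rw [mem_union]
    by_cases h : rep J x y ∈ F
    · left
      rw [mem_image]
      refine ⟨swp J (x, y), mem_filter.2 ⟨mem_univ _, h, ?_⟩, swp_swp J _⟩
      show rep J (rep J x y) (rep J y x) ∈ A
      rw [rep_rep]
      exact hz'.1
    · right
      exact mem_filter.2 ⟨mem_univ _, hz'.2, h⟩
  refine (card_le_card h1).trans ((card_union_le _ _).trans ?_)
  exact add_le_add card_image_le (leave_le F J)

/-- the pairs which leave `F` in the direction `i` -/
def lv (F : Finset (∀ i, L i)) (i : ι) : ℕ :=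
  ((F ×ˢ (univ : Finset (L i))).filter fun q => update q.1 i q.2 ∉ F).card

omit [∀ i, DecidableEq (L i)] in
lemma avg (i : ι) (g : L i → ℕ) :
    Fintype.card (L i) * ∑ y : ∀ i, L i, g (y i) = Fintype.card (∀ i, L i) * ∑ s, g s := by
  classical
  have h1 : ∑ z : (∀ i, L i) × L i, g (z.1 i) = ∑ z : (∀ i, L i) × L i, g z.2 := by
    refine Fintype.sum_bijective (fun z : (∀ i, L i) × L i => (update z.1 i z.2, z.1 i)) ?_ _ _ ?_
    · refine Involutive.bijective ?_
      rintro ⟨y, s⟩
      simp only [update_self, update_idem, update_eq_self]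
    · rintro ⟨y, s⟩
      rfl
  rw [Fintype.sum_prod_type, Fintype.sum_prod_type] at h1
  simp only [sum_const, card_univ, smul_eq_mul] at h1
  rw [← mul_sum] at h1
  exact h1

lemma ch_eq (F : Finset (∀ i, L i)) (i : ι) :
    Fintype.card (L i) * ch F i = Fintype.card (∀ i, L i) * lv F i := by
  classical
  have h1 : ch F i = ∑ x ∈ F, ∑ y : ∀ i, L i, if update x i (y i) ∉ F then 1 else 0 := by
    rw [ch, card_filter, Fintype.sum_prod_type, ← sum_filter_add_sum_filter_not univ (fun x => x ∈ F)]
    have h2 : ∑ x ∈ univ.filter (fun x : ∀ i, L i => ¬ x ∈ F), ∑ y : ∀ i, L i,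
        (if (x, y).1 ∈ F ∧ update (x, y).1 i ((x, y).2 i) ∉ F then 1 else 0) = 0 := by
      refine sum_eq_zero fun x hx => sum_eq_zero fun y _ => ?_
      rw [if_neg]
      rintro ⟨h, _⟩
      exact (mem_filter.1 hx).2 h
    rw [h2, add_zero]
    have e : univ.filter (fun x : ∀ i, L i => x ∈ F) = F := by ext x; simp
    rw [e]
    refine sum_congr rfl fun x hx => sum_congr rfl fun y _ => ?_
    simp [hx]
  have h3 : lv F i = ∑ x ∈ F, ∑ s : L i, if update x i s ∉ F then 1 else 0 := by
    rw [lv, card_filter, sum_product]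
  rw [h1, h3, mul_sum, mul_sum]
  refine sum_congr rfl fun x _ => ?_
  exact avg i fun s => if update x i s ∉ F then 1 else 0

end swap

section slices

variable {ι : Type} [DecidableEq ι] {L : ι → Type}

/-- put a word on `J` into a word -/
def put (J : Finset ι) (z : ∀ i : J, L i) (x : ∀ i, L i) : ∀ i, L i :=
  fun i => if h : i ∈ J then z ⟨i, h⟩ else x i

lemma put_inj (J : Finset ι) (x : ∀ i, L i) : Injective fun z : ∀ i : J, L i => put J z x := by
  intro z z' h
  funext i
  have := congrFun h i.1
  simpa [put, i.2] using this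

variable [Fintype ι] [∀ i, Fintype (L i)] [∀ i, DecidableEq (L i)]

lemma slice_eq (A : Finset (∀ i, L i)) (J : Finset ι) (x : ∀ i, L i) :
    (univ.filter fun y : ∀ i, L i => rep J x y ∈ A).card =
      (univ.filter fun z : ∀ i : J, L i => put J z x ∈ A).card *
        Fintype.card (∀ i : {i // i ∉ J}, L i) := by
  classical
  have h1 : (univ.filter fun y : ∀ i, L i => rep J x y ∈ A).card =
      ((univ.filter fun z : ∀ i : {i // i ∈ J}, L i => put J z x ∈ A) ×ˢ
        (univ : Finset (∀ i : {i // i ∉ J}, L i))).card := by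
    refine card_bijective (Equiv.piEquivPiSubtypeProd (fun i => i ∈ J) L)
      (Equiv.bijective _) fun y => ?_
    rw [mem_filter, mem_product, mem_filter]
    simp only [mem_univ, true_and, and_true]
    have e : rep J x y = put J ((Equiv.piEquivPiSubtypeProd (fun i => i ∈ J) L) y).1 x := by
      funext i
      by_cases h : i ∈ J
      · simp [rep, put, h, Equiv.piEquivPiSubtypeProd]
      · simp [rep, put, h]
    rw [e]
  rw [h1, card_product, card_univ]

lemma card_split (J : Finset ι) :
    Fintype.card (∀ i, L i) = Fintype.card (∀ i : J, L i) *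
      Fintype.card (∀ i : {i // i ∉ J}, L i) := by
  classical
  rw [← Fintype.card_prod]
  exact Fintype.card_congr (Equiv.piEquivPiSubtypeProd (fun i => i ∈ J) L)

/-- relative density: the set `J` of places -/
theorem rel [∀ i, Nonempty (L i)] (F A : Finset (∀ i, L i)) (J : Finset ι) (η : ℝ)
    (hA : ∀ x, ((univ.filter fun z : ∀ i : J, L i => put J z x ∈ A).card : ℝ) ≤
      η * Fintype.card (∀ i : J, L i)) :
    ((A ∩ F).card : ℝ) ≤ η * F.card + ∑ i ∈ J, (lv F i : ℝ) / Fintype.card (L i) := by
  classical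
  have hX : (0 : ℝ) < Fintype.card (∀ i, L i) := by exact_mod_cast Fintype.card_pos
  have h1 := inter_le F A J
  have h2 : ((univ.filter fun z : (∀ i, L i) × (∀ i, L i) =>
      z.1 ∈ F ∧ rep J z.1 z.2 ∈ A).card : ℝ) ≤ Fintype.card (∀ i, L i) * (η * F.card) := by
    have h3 : (univ.filter fun z : (∀ i, L i) × (∀ i, L i) =>
        z.1 ∈ F ∧ rep J z.1 z.2 ∈ A).card =
        ∑ x ∈ F, (univ.filter fun y => rep J x y ∈ A).card := by
      rw [card_filter, Fintype.sum_prod_type, ← sum_filter_add_sum_filter_not univ fun x => x ∈ F]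
      have h4 : ∑ x ∈ univ.filter (fun x => x ∉ F), ∑ y : ∀ i, L i,
          (if (x, y).1 ∈ F ∧ rep J (x, y).1 (x, y).2 ∈ A then 1 else 0) = 0 := by
        apply sum_eq_zero
        intro x hx
        apply sum_eq_zero
        intro y _
        rw [if_neg]
        rintro ⟨h, -⟩
        exact (mem_filter.1 hx).2 h
      rw [h4, add_zero]
      have e : univ.filter (fun x => x ∈ F) = F := by
        ext x
        simp
      rw [e]
      apply sum_congr rfl
      intro x hx
      rw [card_filter]
      apply sum_congr rfl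
      intro y _
      simp [hx]
    rw [h3]
    push_cast
    have h5 : ∀ x ∈ F, ((univ.filter fun y => rep J x y ∈ A).card : ℝ) ≤
        η * Fintype.card (∀ i, L i) := by
      intro x _
      rw [slice_eq, card_split J]
      push_cast
      have := mul_le_mul_of_nonneg_right (hA x)
        (Nat.cast_nonneg (α := ℝ) (Fintype.card (∀ i : {i // i ∉ J}, L i)))
      linarith
    refine (sum_le_sum h5).trans ?_
    rw [sum_const, nsmul_eq_mul]
    linarith
  have h3 : ∀ i, (ch F i : ℝ) = Fintype.card (∀ i, L i) * ((lv F i : ℝ) / Fintype.card (L i)) := by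
    intro i
    have hi : (0 : ℝ) < Fintype.card (L i) := by exact_mod_cast Fintype.card_pos
    have := ch_eq F i
    have h' : (Fintype.card (L i) : ℝ) * ch F i = Fintype.card (∀ i, L i) * lv F i := by
      exact_mod_cast this
    rw [← mul_div_assoc, eq_div_iff hi.ne']
    linarith
  have h4 : (Fintype.card (∀ i, L i) : ℝ) * ((A ∩ F).card : ℝ) ≤
      Fintype.card (∀ i, L i) * (η * F.card) +
        Fintype.card (∀ i, L i) * ∑ i ∈ J, (lv F i : ℝ) / Fintype.card (L i) := by
    have h5 : ((∑ i ∈ J, ch F i : ℕ) : ℝ) =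
        Fintype.card (∀ i, L i) * ∑ i ∈ J, (lv F i : ℝ) / Fintype.card (L i) := by
      push_cast
      rw [mul_sum]
      exact sum_congr rfl fun i _ => h3 i
    have h6 : (Fintype.card (∀ i, L i) : ℝ) * ((A ∩ F).card : ℝ) ≤
        ((univ.filter fun z : (∀ i, L i) × (∀ i, L i) =>
          z.1 ∈ F ∧ rep J z.1 z.2 ∈ A).card : ℝ) + ((∑ i ∈ J, ch F i : ℕ) : ℝ) := by
      exact_mod_cast h1
    rw [h5] at h6
    linarith
  rw [← mul_add] at h4
  exact le_of_mul_le_mul_left h4 hX

end slices

/-- there are `N` places in `K` of at most average weight -/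
theorem light {ι : Type} [DecidableEq ι] (w : ι → ℝ) (N : ℕ) : ∀ (K : Finset ι), N ≤ K.card →
    ∃ J ⊆ K, J.card = N ∧ (K.card : ℝ) * ∑ i ∈ J, w i ≤ N * ∑ i ∈ K, w i := by
  intro K
  induction K using Finset.strongInduction with
  | H K ih =>
    intro hN
    rcases hN.eq_or_lt with h | h
    · exact ⟨K, Subset.refl _, h.symm, by rw [h]⟩
    · have hne : K.Nonempty := by
        rw [← card_pos]
        omega
      obtain ⟨a, ha, hmax⟩ := exists_max_image K w hne
      have hc : (K.erase a).card + 1 = K.card := card_erase_add_one ha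
      obtain ⟨J, hJ, hJc, hJw⟩ := ih (K.erase a) (erase_ssubset ha) (by omega)
      refine ⟨J, hJ.trans (erase_subset _ _), hJc, ?_⟩
      have h1 : ∑ i ∈ K, w i = w a + ∑ i ∈ K.erase a, w i := (add_sum_erase K w ha).symm
      have h2 : ∑ i ∈ K, w i ≤ K.card * w a := by
        rw [← nsmul_eq_mul, ← sum_const]
        exact sum_le_sum fun i hi => hmax i hi
      have h3 : ∑ i ∈ J, w i ≤ N * w a := by
        rw [← hJc, ← nsmul_eq_mul, ← sum_const]
        exact sum_le_sum fun i hi => hmax i (mem_of_mem_erase (hJ hi))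
      have h4 : (K.card : ℝ) = (K.erase a).card + 1 := by exact_mod_cast hc.symm
      rw [h4, h1]
      linarith
end Pool.Agent.N389.QB
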