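import Pool.Agent.N389.QB.Energy
import Pool.Agent.N714.AP.Fin

set_option autoImplicit false

/-!
# Sets of numbers and the replacement of digits
-/

namespace Pool.Agent.N389.QB

open Finset Function

section digits
variable {q n m : ℕ}

/-- the number with the digits `b` -/
def val (b : Fin n → Fin q) : ℕ := ∑ i, (b i : ℕ) * q ^ (i : ℕ)

lemma val_eq (b : Fin n → Fin q) : (finFunctionFinEquiv b : ℕ) = val b :=
  finFunctionFinEquiv_apply b

lemma val_lt (b : Fin n → Fin q) : val b < q ^ n := by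
  rw [← val_eq]
  exact (finFunctionFinEquiv b).2

lemma val_inj : Injective (val : (Fin n → Fin q) → ℕ) := by
  intro a b h
  rw [← val_eq, ← val_eq] at h
  exact finFunctionFinEquiv.injective (Fin.ext h)

lemma val_surj {x : ℕ} (hx : x < q ^ n) : ∃ b : Fin n → Fin q, val b = x := by
  refine ⟨finFunctionFinEquiv.symm ⟨x, hx⟩, ?_⟩
  rw [← val_eq, Equiv.apply_symm_apply]

lemma val_digit (b : Fin n → Fin q) (i : Fin n) : val b / q ^ (i : ℕ) % q = b i := by
  have h : b = finFunctionFinEquiv.symm ⟨val b, val_lt b⟩ := by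
    rw [Equiv.eq_symm_apply]
    exact Fin.ext (val_eq b)
  have h2 := congrArg (fun f : Fin n → Fin q => ((f i : Fin q) : ℕ)) h
  exact h2.symm

/-- a set of numbers as a set of words -/
def lift (q n : ℕ) (A : Finset ℕ) : Finset (Fin n → Fin q) := univ.filter fun b => val b ∈ A

lemma mem_lift {A : Finset ℕ} {b : Fin n → Fin q} : b ∈ lift q n A ↔ val b ∈ A := by
  simp [lift]

lemma image_lift {A : Finset ℕ} (hA : A ⊆ range (q ^ n)) : (lift q n A).image val = A := by
  ext x
  rw [mem_image]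
  constructor
  · rintro ⟨b, hb, rfl⟩
    exact mem_lift.1 hb
  · intro hx
    obtain ⟨b, rfl⟩ := val_surj (mem_range.1 (hA hx))
    exact ⟨b, mem_lift.2 hx, rfl⟩

lemma card_lift {A : Finset ℕ} (hA : A ⊆ range (q ^ n)) : (lift q n A).card = A.card := by
  conv_rhs => rw [← image_lift hA, card_image_of_injective _ val_inj]

/-- the number in which the digit of `x` at the place `i` in base `q` is replaced by `s` -/
def setDigit (q x i s : ℕ) : ℕ := x - x / q ^ i % q * q ^ i + s * q ^ i

lemma setDigit_val (b : Fin n → Fin q) (i : Fin n) (s : Fin q) :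
    setDigit q (val b) i s = val (update b i s) := by
  have h1 : ∀ c : Fin n → Fin q,
      val c = (c i : ℕ) * q ^ (i : ℕ) + ∑ k ∈ univ.erase i, (c k : ℕ) * q ^ (k : ℕ) := fun c =>
    (add_sum_erase univ (fun k => (c k : ℕ) * q ^ (k : ℕ)) (mem_univ i)).symm
  rw [setDigit, val_digit, h1 (update b i s), update_self]
  have h2 : ∑ k ∈ univ.erase i, ((update b i s k : Fin q) : ℕ) * q ^ (k : ℕ) =
      ∑ k ∈ univ.erase i, (b k : ℕ) * q ^ (k : ℕ) := by
    refine sum_congr rfl fun k hk => ?_
    rw [update_of_ne (ne_of_mem_erase hk)]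
  rw [h2]
  have h3 := h1 b
  omega

/-- the boundary -/
def bd (q n : ℕ) (F : Finset ℕ) : ℕ :=
  ((F ×ˢ (range n ×ˢ range q)).filter fun t => setDigit q t.1 t.2.1 t.2.2 ∉ F).card

lemma bd_eq {F : Finset ℕ} (hF : F ⊆ range (q ^ n)) :
    bd q n F = ∑ i : Fin n, lv (L := fun _ => Fin q) (lift q n F) i := by
  classical
  have h1 : bd q n F = ∑ x ∈ F, ∑ i ∈ range n, ∑ s ∈ range q,
      if setDigit q x i s ∉ F then 1 else 0 := by
    rw [bd, card_filter, sum_product]
    refine sum_congr rfl fun x _ => ?_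
    exact sum_product (range n) (range q) fun t => if setDigit q x t.1 t.2 ∉ F then 1 else 0
  have h2 : ∀ g : ℕ → ℕ, ∑ x ∈ F, g x = ∑ b ∈ lift q n F, g (val b) := by
    intro g
    conv_lhs => rw [← image_lift hF]
    rw [sum_image fun a _ b _ h => val_inj h]
  rw [h1, h2]
  have h3 : ∀ i : Fin n, lv (L := fun _ => Fin q) (lift q n F) i =
      ∑ b ∈ lift q n F, ∑ s : Fin q, if update b i s ∉ lift q n F then 1 else 0 := by
    intro i
    rw [lv, card_filter, sum_product]
  have h4 : ∑ i : Fin n, lv (L := fun _ => Fin q) (lift q n F) i =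
      ∑ b ∈ lift q n F, ∑ i : Fin n, ∑ s : Fin q, if update b i s ∉ lift q n F then 1 else 0 := by
    rw [← sum_comm]
    exact sum_congr rfl fun i _ => h3 i
  rw [h4]
  refine sum_congr rfl fun b _ => ?_
  rw [Finset.sum_range fun i => ∑ s ∈ range q, if setDigit q (val b) i s ∉ F then 1 else 0]
  refine sum_congr rfl fun i _ => ?_
  rw [Finset.sum_range fun s => if setDigit q (val b) i s ∉ F then 1 else 0]
  refine sum_congr rfl fun s _ => ?_
  rw [setDigit_val]
  exact if_congr (not_congr mem_lift.symm) rfl rfl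

/-- the block `j` of places -/
def blk (n m j : ℕ) : Finset (Fin n) := univ.filter fun i => (i : ℕ) / m = j

lemma blk_sum (w : Fin n → ℝ) (hw : ∀ i, 0 ≤ w i) (hk : 0 < n / m) :
    ∃ j < n / m, ((n / m : ℕ) : ℝ) * ∑ i ∈ blk n m j, w i ≤ ∑ i, w i := by
  classical
  obtain ⟨J, hJ, hJ1, hJw⟩ := light (fun j => ∑ i ∈ blk n m j, w i) 1 (range (n / m))
    (by rw [card_range]; exact hk)
  obtain ⟨j, rfl⟩ := card_eq_one.1 hJ1
  refine ⟨j, mem_range.1 (hJ (mem_singleton_self j)), ?_⟩
  rw [sum_singleton, card_range] at hJw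
  refine hJw.trans ?_
  rw [Nat.cast_one, one_mul, ← sum_biUnion]
  · exact sum_le_sum_of_subset_of_nonneg (subset_univ _) fun i _ _ => hw i
  · intro a _ b _ hab
    rw [Function.onFun, Finset.disjoint_left]
    intro i hi hi'
    exact hab ((mem_filter.1 hi).2.symm.trans (mem_filter.1 hi').2)

/-- the place `a` of the block `j` -/
def plc (j : ℕ) (hj : j < n / m) (a : Fin m) : blk n m j :=
  ⟨⟨j * m + a, by
    have h1 : (j + 1) * m ≤ n / m * m := Nat.mul_le_mul_right _ hj
    have h2 := Nat.div_mul_le_self n m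
    have h3 := a.2
    have h4 : (j + 1) * m = j * m + m := by ring
    omega⟩, by
    have h3 := a.2
    rw [blk, mem_filter]
    refine ⟨mem_univ _, ?_⟩
    show (j * m + (a : ℕ)) / m = j
    rw [mul_comm, Nat.mul_add_div (by omega), Nat.div_eq_of_lt h3, add_zero]⟩

lemma plc_bij (hm : 0 < m) (j : ℕ) (hj : j < n / m) : Bijective (plc (n := n) (m := m) j hj) := by
  constructor
  · intro a b h
    have h1 : j * m + (a : ℕ) = j * m + b :=
      congrArg (fun z : blk n m j => ((z.1 : Fin n) : ℕ)) h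
    exact Fin.ext (by omega)
  · rintro ⟨i, hi⟩
    have h1 := (mem_filter.1 hi).2
    refine ⟨⟨(i : ℕ) % m, Nat.mod_lt _ hm⟩, ?_⟩
    apply Subtype.ext
    apply Fin.ext
    show j * m + (i : ℕ) % m = i
    rw [← h1, mul_comm]
    exact Nat.div_add_mod _ _

lemma val_put (hm : 0 < m) (j : ℕ) (hj : j < n / m) (x : Fin n → Fin q)
    (z : ∀ _ : blk n m j, Fin q) :
    val (put (L := fun _ => Fin q) (blk n m j) z x) =
      ∑ i ∈ univ.filter (fun i => ¬ i ∈ blk n m j), (x i : ℕ) * q ^ (i : ℕ) +
        q ^ (j * m) * val fun a : Fin m => z (plc j hj a) := by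
  classical
  rw [val, ← sum_filter_add_sum_filter_not univ fun i => i ∈ blk n m j, add_comm]
  congr 1
  · refine sum_congr rfl fun i hi => ?_
    rw [put, dif_neg (mem_filter.1 hi).2]
  · have e : univ.filter (fun i => i ∈ blk n m j) = blk n m j := by
      ext i
      simp
    rw [e, ← sum_coe_sort, val, mul_sum,
      ← (plc_bij hm j hj).sum_comp (fun i : blk n m j =>
        ((put (L := fun _ => Fin q) (blk n m j) z x i : Fin q) : ℕ) * q ^ ((i : Fin n) : ℕ))]
    refine sum_congr rfl fun a _ => ?_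
    have e2 : put (L := fun _ => Fin q) (blk n m j) z x (plc j hj a) = z (plc j hj a) := by
      rw [put, dif_pos (plc j hj a).2]
    rw [e2]
    show (z (plc j hj a) : ℕ) * q ^ (j * m + (a : ℕ)) = _
    rw [pow_add]
    ring

/-- **relative density for sets of numbers**, with explicit loss -/
theorem digits_rel (hq : 1 ≤ q) (hm : 1 ≤ m) (hmn : m ≤ n) (F A : Finset ℕ)
    (hF : F ⊆ range (q ^ n)) (r : ℕ)
    (hA : ∀ c j : ℕ, ((range (q ^ m)).filter fun s => c + q ^ (j * m) * s ∈ A).card ≤ r) (ε : ℝ)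
    (hb : (bd q n F : ℝ) ≤ ε * (q * (n / m : ℕ)) * F.card) :
    ((A ∩ F).card : ℝ) ≤ (r / (q : ℝ) ^ m + ε) * F.card := by
  classical
  have hk : 0 < n / m := Nat.div_pos hmn hm
  have hk0 : (0 : ℝ) < (n / m : ℕ) := by exact_mod_cast hk
  have hq0 : (0 : ℝ) < q := by exact_mod_cast hq
  have : Nonempty (Fin q) := ⟨⟨0, hq⟩⟩
  obtain ⟨j, hj, hjw⟩ := blk_sum (n := n) (m := m)
    (fun i => (lv (L := fun _ => Fin q) (lift q n F) i : ℝ) / q) (fun i => by positivity) hk
  have h1 : ∑ i : Fin n, (lv (L := fun _ => Fin q) (lift q n F) i : ℝ) / q = bd q n F / q := by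
    rw [bd_eq hF, ← sum_div]
    push_cast
    rfl
  rw [h1] at hjw
  have h2 : ∑ i ∈ blk n m j, (lv (L := fun _ => Fin q) (lift q n F) i : ℝ) / q ≤ ε * F.card := by
    have h3 : ((n / m : ℕ) : ℝ) * ∑ i ∈ blk n m j,
        (lv (L := fun _ => Fin q) (lift q n F) i : ℝ) / q ≤ (n / m : ℕ) * (ε * F.card) := by
      refine hjw.trans ?_
      rw [div_le_iff₀ hq0]
      refine hb.trans (le_of_eq ?_)
      ring
    exact le_of_mul_le_mul_left h3 hk0
  have h4 := rel (L := fun _ : Fin n => Fin q) (lift q n F) (lift q n A) (blk n m j)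
    (r / (q : ℝ) ^ m) (fun x => ?_)
  · have e1 : (lift q n A ∩ lift q n F).card = (A ∩ F).card := by
      have : lift q n A ∩ lift q n F = lift q n (A ∩ F) := by
        ext b
        simp [mem_lift]
      rw [this, card_lift (inter_subset_right.trans hF)]
    rw [e1, card_lift hF] at h4
    simp only [Fintype.card_fin] at h4
    refine h4.trans ?_
    rw [add_mul]
    linarith
  · have hcard : Fintype.card (∀ _ : blk n m j, Fin q) = q ^ m := by
      rw [Fintype.card_fun, Fintype.card_fin]
      congr 1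
      rw [← Fintype.card_of_bijective (plc_bij hm j hj), Fintype.card_fin]
    rw [hcard]
    push_cast
    rw [div_mul_cancel₀ _ (by positivity)]
    have h5 : (univ.filter fun z : ∀ _ : blk n m j, Fin q =>
        put (L := fun _ => Fin q) (blk n m j) z x ∈ lift q n A).card ≤ r := by
      refine le_trans ?_ (hA (∑ i ∈ univ.filter (fun i => ¬ i ∈ blk n m j),
        (x i : ℕ) * q ^ (i : ℕ)) j)
      refine card_le_card_of_injOn (fun z => val fun a : Fin m => z (plc j hj a)) ?_ ?_
      · intro z hz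
        have hz' := (mem_filter.1 hz).2
        rw [mem_lift, val_put hm j hj] at hz'
        exact mem_filter.2 ⟨mem_range.2 (val_lt _), hz'⟩
      · intro z _ z' _ h
        have h6 := val_inj h
        funext i
        obtain ⟨a, rfl⟩ := (plc_bij hm j hj).2 i
        exact congrFun h6 a
    exact_mod_cast h5

end digits

end Pool.Agent.N389.QB
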