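import Pool.Agent.N389.QB.Digits

set_option autoImplicit false

/-!
# Progression-free sets of numbers and sets of small digit boundary
-/

namespace Pool.Agent.N389.QB

open Finset Function
open Pool.Agent.N714.AP (NoAP szem noAP_iff)

/-- The numbers `a q ^ j` with `1 ≤ a ≤ Q` and `j ≥ 0`. -/
def Steps (q Q : ℕ) : Set ℕ := {d | ∃ a j : ℕ, 1 ≤ a ∧ a ≤ Q ∧ d = a * q ^ j}

lemma slice_noAP {q m k Q : ℕ} {A : Finset ℕ} (hA : NoAP k (Steps q Q) A)
    (c j : ℕ) :
    NoAP k {d | 1 ≤ d ∧ d ≤ Q} ((range (q ^ m)).filter fun s => c + q ^ (j * m) * s ∈ A) := by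
  rintro a d ⟨hd, hdQ⟩
  by_contra hcon
  push Not at hcon
  obtain ⟨i, hi, h⟩ := hA (c + q ^ (j * m) * a) (d * q ^ (j * m)) ⟨d, j * m, hd, hdQ, rfl⟩
  apply h
  have h1 := (mem_filter.1 (hcon i hi)).2
  have e : c + q ^ (j * m) * (a + i * d) = c + q ^ (j * m) * a + i * (d * q ^ (j * m)) := by ring
  rwa [e] at h1

/-- Szemeredi's theorem with bounded differences -/
theorem szem_bdd (k : ℕ) (hk : 1 ≤ k) (δ : ℝ) (hδ : 0 < δ) : ∃ M₀ Q : ℕ, ∀ M : ℕ, M₀ ≤ M →
    ∀ B : Finset ℕ, B ⊆ range M → NoAP k {d | 1 ≤ d ∧ d ≤ Q} B → (B.card : ℝ) ≤ δ * M := by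
  classical
  obtain ⟨M₁, hM₁⟩ := szem k (δ / 2) (by positivity)
  obtain ⟨Q, hQ⟩ : ∃ Q, Q = M₁ + k + 1 := ⟨_, rfl⟩
  have hQ0 : 0 < Q := by omega
  refine ⟨Q, Q, fun M hM B hB hfree => ?_⟩
  -- one interval
  have h1 : ∀ t : ℕ, ((B.filter fun x => x / Q = t).card : ℝ) ≤ δ / 2 * Q := by
    intro t
    have h2 := hM₁ Q (by omega) ((B.filter fun x => x / Q = t).image fun x => x - t * Q) ?_ ?_
    · rw [card_image_of_injOn] at h2
      · exact h2
      · intro x hx y hy hxy
        have hx' := (mem_filter.1 hx).2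
        have hy' := (mem_filter.1 hy).2
        have a1 := Nat.div_mul_le_self x Q
        have a2 := Nat.div_mul_le_self y Q
        rw [hx'] at a1
        rw [hy'] at a2
        simp only at hxy
        omega
    · intro y hy
      obtain ⟨x, hx, rfl⟩ := mem_image.1 hy
      have hx' := (mem_filter.1 hx).2
      rw [mem_range]
      have a1 := Nat.lt_div_mul_add (a := x) hQ0
      rw [hx'] at a1
      omega
    · intro a d hd
      by_contra hcon
      push Not at hcon
      have hmem : ∀ i < k, t * Q + (a + i * d) ∈ B ∧ a + i * d < Q := by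
        intro i hi
        obtain ⟨x, hx, hxe⟩ := mem_image.1 (hcon i hi)
        have hx' := (mem_filter.1 hx).2
        have a1 := Nat.div_mul_le_self x Q
        have a2 := Nat.lt_div_mul_add (a := x) hQ0
        rw [hx'] at a1 a2
        have e : t * Q + (a + i * d) = x := by omega
        rw [e]
        exact ⟨(mem_filter.1 hx).1, by omega⟩
      rcases Nat.lt_or_ge 1 k with hk2 | hk2
      · have hdQ : d ≤ Q := by
          have := (hmem 1 hk2).2
          omega
        obtain ⟨i, hi, h⟩ := hfree (t * Q + a) d ⟨hd, hdQ⟩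
        apply h
        rw [add_assoc]
        exact (hmem i hi).1
      · have hk1 : k = 1 := by omega
        subst hk1
        obtain ⟨i, hi, h⟩ := hfree (t * Q + a) 1 ⟨le_refl 1, by omega⟩
        apply h
        have hi0 : i = 0 := by omega
        subst hi0
        have := (hmem 0 (by omega)).1
        simpa [add_assoc] using this
  have h2 : B.card = ∑ t ∈ range (M / Q + 1), (B.filter fun x => x / Q = t).card := by
    refine card_eq_sum_card_fiberwise fun x hx => ?_
    have := mem_range.1 (hB hx)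
    exact mem_coe.2 (mem_range.2 (Nat.lt_succ_of_le (Nat.div_le_div_right this.le)))
  have h3 : (B.card : ℝ) ≤ (M / Q + 1 : ℕ) * (δ / 2 * Q) := by
    rw [h2]
    push_cast
    refine (sum_le_sum fun t _ => h1 t).trans (le_of_eq ?_)
    rw [sum_const, card_range, nsmul_eq_mul]
    push_cast
    ring
  have h4 : ((M / Q : ℕ) : ℝ) * Q ≤ M := by exact_mod_cast Nat.div_mul_le_self M Q
  have h5 : (Q : ℝ) ≤ M := by exact_mod_cast hM
  push_cast at h3
  nlinarith

/-- **the relative Szemeredi theorem for sets of small digit boundary** -/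
theorem szem_rel (k : ℕ) (hk : 1 ≤ k) (δ : ℝ) (hδ : 0 < δ) : ∃ c : ℝ, 0 < c ∧ ∃ n₀ Q : ℕ,
    ∀ q n : ℕ, 2 ≤ q → n₀ ≤ n → ∀ F A : Finset ℕ, F ⊆ range (q ^ n) → NoAP k (Steps q Q) A →
      (bd q n F : ℝ) ≤ c * (q * n) * F.card → ((A ∩ F).card : ℝ) ≤ δ * F.card := by
  obtain ⟨M₀, Q, hM⟩ := szem_bdd k hk (δ / 2) (by positivity)
  obtain ⟨m, hmdef⟩ : ∃ m, m = M₀ + 1 := ⟨_, rfl⟩
  have hm : 1 ≤ m := by omega
  have hm0 : (0 : ℝ) < m := by exact_mod_cast hm
  refine ⟨δ / 4 / m, by positivity, m, Q, fun q n hq hn F A hF hA hb => ?_⟩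
  have hq0 : (0 : ℝ) < q := by
    have : 0 < q := by omega
    exact_mod_cast this
  have hqm : M₀ ≤ q ^ m := by
    have h1 := Nat.lt_two_pow_self (n := m)
    have h2 := Nat.pow_le_pow_left hq m
    omega
  have h1 := digits_rel (q := q) (n := n) (m := m) (by omega) hm hn F A hF
    (⌊δ / 2 * ((q ^ m : ℕ) : ℝ)⌋₊)
    (fun c j => Nat.le_floor (hM (q ^ m) hqm _ (filter_subset _ _) (slice_noAP hA c j)))
    (δ / 2) ?_
  · refine h1.trans ?_
    have h2 : ((⌊δ / 2 * ((q ^ m : ℕ) : ℝ)⌋₊ : ℕ) : ℝ) ≤ δ / 2 * (q : ℝ) ^ m := by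
      have := Nat.floor_le (a := δ / 2 * ((q ^ m : ℕ) : ℝ)) (by positivity)
      push_cast at this
      exact_mod_cast this
    have h3 : ((⌊δ / 2 * ((q ^ m : ℕ) : ℝ)⌋₊ : ℕ) : ℝ) / (q : ℝ) ^ m ≤ δ / 2 := by
      rw [div_le_iff₀ (by positivity)]
      exact h2
    have h4 : (0 : ℝ) ≤ F.card := Nat.cast_nonneg _
    nlinarith
  · refine hb.trans ?_
    have h2 : (n : ℝ) ≤ 2 * m * (n / m : ℕ) := by
      have h3 : n < (n / m) * m + m := Nat.lt_div_mul_add hm
      have h4 : 1 ≤ n / m := Nat.div_pos hn hm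
      have h5 : n ≤ 2 * m * (n / m) := by nlinarith
      exact_mod_cast h5
    have h3 : δ / 4 / m * (q * n) ≤ δ / 2 * (q * (n / m : ℕ)) := by
      calc δ / 4 / m * (q * n) = δ / 4 / m * q * n := by ring
        _ ≤ δ / 4 / m * q * (2 * m * (n / m : ℕ)) := by gcongr
        _ = δ / 2 * (q * (n / m : ℕ)) := by field_simp; ring
    exact mul_le_mul_of_nonneg_right h3 (Nat.cast_nonneg _)

/-- slices of sets without three terms in progression -/
lemma slice_roth {q m : ℕ} (hq : 1 ≤ q) {A : Finset ℕ} (hA : NoAP 3 {d | 0 < d} A) (c j : ℕ) :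
    ((range (q ^ m)).filter fun s => c + q ^ (j * m) * s ∈ A).card ≤ rothNumberNat (q ^ m) := by
  refine ThreeAPFree.le_rothNumberNat _ ((noAP_iff _).1 ?_) (fun x hx => ?_) rfl
  · intro a d hd
    by_contra hcon
    push Not at hcon
    obtain ⟨i, hi, h⟩ := hA (c + q ^ (j * m) * a) (d * q ^ (j * m)) (by
      have hd' : 0 < d := hd
      show 0 < d * q ^ (j * m)
      positivity)
    apply h
    have h1 := (mem_filter.1 (hcon i hi)).2
    have e : c + q ^ (j * m) * (a + i * d) = c + q ^ (j * m) * a + i * (d * q ^ (j * m)) := by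
      ring
    rwa [e] at h1
  · exact mem_range.1 (mem_filter.1 hx).1

/-- sets without three terms in progression have large boundary -/
theorem roth_lower {q n m : ℕ} (hq : 1 ≤ q) (hm : 1 ≤ m) (hmn : m ≤ n) (A : Finset ℕ)
    (hAr : A ⊆ range (q ^ n)) (hA : NoAP 3 {d | 0 < d} A) :
    (1 - (rothNumberNat (q ^ m) : ℝ) / (q : ℝ) ^ m) * (q * (n / m : ℕ)) * A.card ≤ bd q n A := by
  rcases A.eq_empty_or_nonempty with rfl | hne
  · simp
  have hc : (0 : ℝ) < A.card := by exact_mod_cast card_pos.2 hne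
  have hk : 0 < n / m := Nat.div_pos hmn hm
  have hk0 : (0 : ℝ) < (n / m : ℕ) := by exact_mod_cast hk
  have hq0 : (0 : ℝ) < q := by exact_mod_cast hq
  have h1 := digits_rel hq hm hmn A A hAr (rothNumberNat (q ^ m))
    (fun c j => slice_roth hq hA c j)
    ((bd q n A : ℝ) / ((q * (n / m : ℕ)) * A.card)) (le_of_eq (by field_simp))
  rw [inter_self] at h1
  have h2 : 1 ≤ (rothNumberNat (q ^ m) : ℝ) / (q : ℝ) ^ m +
      (bd q n A : ℝ) / ((q * (n / m : ℕ)) * A.card) := by
    by_contra hcon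
    push Not at hcon
    have := mul_lt_mul_of_pos_right hcon hc
    linarith
  have h3 : 1 - (rothNumberNat (q ^ m) : ℝ) / (q : ℝ) ^ m ≤
      (bd q n A : ℝ) / ((q * (n / m : ℕ)) * A.card) := by linarith
  rw [le_div_iff₀ (by positivity)] at h3
  linarith

/-- the trivial upper bound -/
theorem bd_upper {q n : ℕ} (F : Finset ℕ) (hF : F ⊆ range (q ^ n)) :
    bd q n F ≤ (q - 1) * n * F.card := by
  classical
  rw [bd_eq hF, ← card_lift hF]
  have h1 : ∀ i : Fin n, lv (L := fun _ => Fin q) (lift q n F) i ≤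
      (q - 1) * (lift q n F).card := by
    intro i
    rw [lv, card_filter, sum_product]
    have h2 : ∀ b ∈ lift q n F, (∑ s : Fin q, if update b i s ∉ lift q n F then 1 else 0) ≤
        q - 1 := by
      intro b hb
      rw [← card_filter]
      have h3 : (univ.filter fun s : Fin q => update b i s ∉ lift q n F) ⊆ univ.erase (b i) := by
        intro s hs
        refine mem_erase.2 ⟨?_, mem_univ _⟩
        rintro rfl
        apply (mem_filter.1 hs).2
        rw [update_eq_self]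
        exact hb
      refine (card_le_card h3).trans (le_of_eq ?_)
      rw [card_erase_of_mem (mem_univ _), card_univ, Fintype.card_fin]
    refine (sum_le_sum h2).trans (le_of_eq ?_)
    rw [sum_const, smul_eq_mul, mul_comm]
  refine (sum_le_sum fun i _ => h1 i).trans (le_of_eq ?_)
  rw [sum_const, card_univ, Fintype.card_fin, smul_eq_mul]
  ring

/-- sets of small degree -/
theorem deg_digits {q n : ℕ} (hq : 1 ≤ q) (F : Finset ℕ) (hF : F ⊆ range (q ^ n)) (D I : ℕ)
    (g : Fin I → ℕ → ℝ) (T : Fin I → Finset ℕ)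
    (hg : ∀ t, (T t).card ≤ D ∧ ∀ x < q ^ n, ∀ y < q ^ n,
      (∀ i ∈ T t, x / q ^ i % q = y / q ^ i % q) → g t x = g t y)
    (hs : ∀ x < q ^ n, ∑ t, g t x = if x ∈ F then 1 else 0) :
    (bd q n F : ℝ) ≤ q * D * F.card := by
  classical
  have hq0 : (0 : ℝ) < q := by exact_mod_cast hq
  have : Nonempty (Fin q) := ⟨⟨0, hq⟩⟩
  have h1 := bdy_le (L := fun _ : Fin n => Fin q) (lift q n F) D ?_
  · simp only [Fintype.card_fin] at h1
    rw [← sum_div, card_lift hF, div_le_iff₀ hq0] at h1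
    rw [bd_eq hF]
    push_cast
    linarith
  · have e : (fun b : Fin n → Fin q => if b ∈ lift q n F then (1 : ℝ) else 0) =
        ∑ t, fun b => g t (val b) := by
      funext b
      rw [Finset.sum_apply, hs _ (val_lt b)]
      exact if_congr mem_lift rfl rfl
    rw [e]
    refine Submodule.sum_mem _ fun t _ => Submodule.subset_span
      ⟨univ.filter fun i : Fin n => (i : ℕ) ∈ T t, ?_, fun a b hab => ?_⟩
    · rw [inter_univ]
      refine Nat.lt_succ_of_le (le_trans ?_ (hg t).1)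
      refine card_le_card_of_injOn (fun i : Fin n => (i : ℕ)) ?_ ?_
      · intro i hi
        exact (mem_filter.1 hi).2
      · intro i _ i' _ h
        exact Fin.ext h
    · refine (hg t).2 _ (val_lt a) _ (val_lt b) fun i hi => ?_
      by_cases hin : i < n
      · have h3 := hab ⟨i, hin⟩ (mem_filter.2 ⟨mem_univ _, hi⟩)
        have h4 := val_digit a ⟨i, hin⟩
        have h5 := val_digit b ⟨i, hin⟩
        simp only at h4 h5
        rw [h4, h5, h3]
      · have h6 : ∀ x < q ^ n, x / q ^ i = 0 := by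
          intro x hx
          refine Nat.div_eq_of_lt (hx.trans_le ?_)
          exact Nat.pow_le_pow_right hq (by omega)
        rw [h6 _ (val_lt a), h6 _ (val_lt b)]

/-- `r_3(8) = 4`, the upper bound -/
theorem roth8 : rothNumberNat 8 ≤ 4 := by
  obtain ⟨B, hB, hc, hfree⟩ := rothNumberNat_spec 8
  rw [← hc]
  have key : ∀ s ∈ (range 8).powerset, s.card ≤ 4 ∨ ∃ a ∈ range 8, ∃ d ∈ range 4, 0 < d ∧
      a ∈ s ∧ a + d ∈ s ∧ a + 2 * d ∈ s := by decide +kernel
  rcases key B (mem_powerset.2 hB) with h | ⟨a, -, d, -, hd, h1, h2, h3⟩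
  · exact h
  · exfalso
    have := hfree (mem_coe.2 h1) (mem_coe.2 h2) (mem_coe.2 h3) (by ring)
    omega

end Pool.Agent.N389.QB
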