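import Pool.Agent.N389.QB.Bes

set_option autoImplicit false

/-!
# Cells in powers of one operation, and the final forms
-/

namespace Pool.Agent.N389.QB

open Finset Function

/-- powers of one operation on a finite set: full subtables -/
theorem cells_power (B : Type) [Fintype B] [Nonempty B] (j : ℕ) (hj : 1 ≤ j) (δ : ℝ) (hδ : 0 < δ) :
    ∃ m : ℕ, 0 < m ∧ ∀ (ι : Type) [Fintype ι], Fintype.card ι = m → ∀ op : B → B → B,
      Y426.BES.Cells (ι := ι) (A := fun _ => B) (fun _ => op) δ (Fintype.card B ^ (2 * j))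
        (3 * Fintype.card B ^ j) := by
  classical
  obtain ⟨n, hn⟩ := Helper903.DHJ.mdhj (B × B) j (min δ 1) (lt_min hδ one_pos)
  refine ⟨n, ?_, ?_⟩
  · by_contra h0
    obtain ⟨V, -⟩ := hn {x | True} (by
      rw [Y426.BES.dens_eq]
      simp only [filter_true, card_univ]
      rw [div_self (by exact_mod_cast Fintype.card_ne_zero)]
      exact min_le_right _ _)
    obtain ⟨i, -⟩ := V.proper ⟨0, hj⟩
    exact absurd i.2 (by omega)
  · intro ι _ hι op H hH
    obtain ⟨e⟩ : Nonempty (ι ≃ Fin n) := ⟨Fintype.equivFinOfCardEq hι⟩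
    have hpos : (0 : ℝ) < Fintype.card (Fin n → B × B) := by
      exact_mod_cast Fintype.card_pos
    have hcard : (Fintype.card (Fin n → B × B) : ℝ) =
        ((∏ _i : ι, Fintype.card B : ℕ) : ℝ) ^ 2 := by
      rw [Fintype.card_pi]
      simp only [Fintype.card_prod, prod_const, card_univ, Fintype.card_fin, hι]
      push_cast
      ring
    have hcc : (univ.filter fun w : Fin n → B × B => (fun i => w (e i)) ∈ H).card = H.card := by
      refine card_bijective (Equiv.arrowCongr e.symm (Equiv.refl (B × B)))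
        (Equiv.bijective _) fun w => ?_
      rw [mem_filter]
      simp only [mem_univ, true_and]
      rfl
    obtain ⟨V, hV⟩ := hn {w | (fun i => w (e i)) ∈ H} (by
      rw [Y426.BES.dens_eq]
      refine (min_le_left _ _).trans ?_
      rw [le_div_iff₀ hpos, hcard]
      refine hH.trans (le_of_eq ?_)
      rw [← hcc])
    have hcf : Fintype.card (Fin j → B) = Fintype.card B ^ j := by
      rw [Fintype.card_fun, Fintype.card_fin]
    have hinj : Injective fun z : Fin j → B × B => (fun i => V z (e i) : ι → B × B) := by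
      intro z z' h
      apply Helper903.DHJ.sub_inj V
      funext s
      have := congrFun h (e.symm s)
      simpa using this
    refine ⟨univ.image fun z : Fin j → B × B => (fun i => V z (e i)), ?_, ?_,
      univ.image fun x : Fin j → B => fun i => (V (fun s => (x s, x s)) (e i)).1,
      univ.image fun x : Fin j → B => fun i => (V (fun s => (x s, x s)) (e i)).2,
      univ.image fun x : Fin j → B => fun i =>
        Sum.elim (fun c => op c.1 c.2) x (V.idxFun (e i)), ?_, ?_⟩
    · intro p hp
      obtain ⟨z, -, rfl⟩ := mem_image.1 hp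
      exact hV z
    · rw [card_image_of_injective _ hinj, card_univ, Fintype.card_fun,
        Fintype.card_prod, Fintype.card_fin, pow_mul]
      congr 1
      ring
    · have a1 : ∀ g : (Fin j → B) → (ι → B),
          (univ.image g).card ≤ Fintype.card B ^ j := by
        intro g
        rw [← hcf, ← card_univ]
        exact card_image_le
      have b1 := a1 fun x => fun i => (V (fun s => (x s, x s)) (e i)).1
      have b2 := a1 fun x => fun i => (V (fun s => (x s, x s)) (e i)).2
      have b3 := a1 fun x => fun i => Sum.elim (fun c => op c.1 c.2) x (V.idxFun (e i))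
      omega
    · intro p hp
      obtain ⟨z, -, rfl⟩ := mem_image.1 hp
      refine ⟨mem_image.2 ⟨fun s => (z s).1, mem_univ _, ?_⟩,
        mem_image.2 ⟨fun s => (z s).2, mem_univ _, ?_⟩,
        mem_image.2 ⟨fun s => op (z s).1 (z s).2, mem_univ _, ?_⟩⟩
      · funext i
        show (V (fun s => ((z s).1, (z s).1)) (e i)).1 = (V z (e i)).1
        rw [Combinatorics.Subspace.apply_def, Combinatorics.Subspace.apply_def]
        rcases V.idxFun (e i) with c | s <;> rfl
      · funext i
        show (V (fun s => ((z s).2, (z s).2)) (e i)).2 = (V z (e i)).2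
        rw [Combinatorics.Subspace.apply_def, Combinatorics.Subspace.apply_def]
        rcases V.idxFun (e i) with c | s <;> rfl
      · funext i
        show Sum.elim (fun c : B × B => op c.1 c.2) (fun s => op (z s).1 (z s).2)
          (V.idxFun (e i)) = op (V z (e i)).1 (V z (e i)).2
        rw [Combinatorics.Subspace.apply_def]
        rcases V.idxFun (e i) with c | s <;> rfl

/-- the boundary in the directions of `K` -/
theorem bdry_eq {ι : Type} [Fintype ι] [DecidableEq ι] {L : ι → Type} [∀ i, Fintype (L i)]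
    [∀ i, DecidableEq (L i)] (F : Finset (∀ i, L i)) (K : Finset ι) :
    ∑ p ∈ F, ∑ i ∈ K, ((univ.filter fun t : L i => update p i t ∉ F).card : ℝ) /
      Fintype.card (L i) = ∑ i ∈ K, (lv F i : ℝ) / Fintype.card (L i) := by
  classical
  rw [sum_comm]
  refine sum_congr rfl fun i _ => ?_
  rw [← sum_div, lv, card_filter, sum_product]
  push_cast
  congr 1
  refine sum_congr rfl fun p _ => ?_
  rw [card_filter]
  push_cast
  rfl

/-- sets of degree at most `D` have boundary at most `D |F|` -/
theorem deg_bdry {ι : Type} [Fintype ι] [DecidableEq ι] {L : ι → Type} [∀ i, Fintype (L i)]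
    [∀ i, DecidableEq (L i)] (F : Finset (∀ i, L i)) (D I : ℕ) (g : Fin I → (∀ i, L i) → ℝ)
    (T : Fin I → Finset ι)
    (hg : ∀ t, (T t).card ≤ D ∧ ∀ a b : ∀ i, L i, (∀ i ∈ T t, a i = b i) → g t a = g t b)
    (hF : ∀ a, ∑ t, g t a = if a ∈ F then 1 else 0) :
    ∑ i, (lv F i : ℝ) / Fintype.card (L i) ≤ D * F.card := by
  classical
  rcases F.eq_empty_or_nonempty with rfl | ⟨a₀, -⟩
  · simp [lv]
  have hne : ∀ i, Nonempty (L i) := fun i => ⟨a₀ i⟩
  refine bdy_le F D ?_
  have : (fun x => if x ∈ F then (1 : ℝ) else 0) = ∑ t, g t := by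
    funext x
    rw [Finset.sum_apply, hF]
  rw [this]
  refine Submodule.sum_mem _ fun t _ => Submodule.subset_span ⟨T t, ?_, (hg t).2⟩
  rw [inter_univ]
  have := (hg t).1
  omega

/-- a sparse hypergraph over the diagonal -/
theorem diag {ι : Type} [Fintype ι] [DecidableEq ι] {A : ι → Type} [∀ i, Fintype (A i)]
    [∀ i, DecidableEq (A i)] (mul : ∀ i, A i → A i → A i) (r e : ℕ) (hr : 3 ≤ r) (he : 3 ≤ e) :
    ∃ (F : Finset (∀ i, A i × A i)) (V : Type) (_ : DecidableEq V) (α β γ : (∀ i, A i) → V)
      (G : Finset (Finset V)), F.card = Fintype.card (∀ i, A i) ∧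
      (∀ f ∈ G, f.card = r ∧ ∃ p ∈ F, ∃ t ⊆ f, t.card = 3 ∧
        t = {α (fun i => (p i).1), β (fun i => (p i).2), γ (fun i => mul i (p i).1 (p i).2)}) ∧
      G.card = F.card ∧
      ∀ S ⊆ G, S.card = e → (r - 2) * e + 3 < (S.biUnion id).card := by
  classical
  obtain ⟨s, rfl⟩ : ∃ s, r = s + 3 := ⟨r - 3, by omega⟩
  obtain ⟨κ, hκ⟩ : ∃ κ : Fin (s + 3) → (∀ i, A i) → (∀ i, A i) × Fin (s + 3),
      ∀ k x, κ k x = if k = 2 then (fun i => mul i (x i) (x i), k) else (x, k) :=
    ⟨_, fun _ _ => rfl⟩
  have hκ2 : ∀ k x, (κ k x).2 = k := by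
    intro k x
    rw [hκ]
    split_ifs <;> rfl
  obtain ⟨f, hf⟩ : ∃ f : (∀ i, A i) → Finset ((∀ i, A i) × Fin (s + 3)),
      ∀ x, f x = univ.image fun k => κ k x := ⟨_, fun _ => rfl⟩
  have hfc : ∀ x, (f x).card = s + 3 := by
    intro x
    rw [hf, card_image_of_injective, card_univ, Fintype.card_fin]
    intro k k' h
    have := congrArg Prod.snd h
    simpa [hκ2] using this
  have v2 : ((2 : Fin (s + 3)) : ℕ) = 2 := Fin.val_two
  have v1 : ((1 : Fin (s + 3)) : ℕ) = 1 := Fin.val_one (s + 1)
  have v0 : ((0 : Fin (s + 3)) : ℕ) = 0 := rfl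
  have h02 : (0 : Fin (s + 3)) ≠ 2 := by
    intro h
    have := congrArg Fin.val h
    omega
  have h12 : (1 : Fin (s + 3)) ≠ 2 := by
    intro h
    have := congrArg Fin.val h
    omega
  have h01 : (0 : Fin (s + 3)) ≠ 1 := by
    intro h
    have := congrArg Fin.val h
    omega
  have hk0 : ∀ x, κ 0 x = (x, 0) := fun x => by rw [hκ, if_neg h02]
  have hk1 : ∀ x, κ 1 x = (x, 1) := fun x => by rw [hκ, if_neg h12]
  have hk2 : ∀ x, κ 2 x = (fun i => mul i (x i) (x i), 2) := fun x => by rw [hκ, if_pos rfl]
  have hfinj : Injective f := by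
    intro x y h
    have h1 : κ 0 x ∈ f y := by
      rw [← h, hf]
      exact mem_image_of_mem _ (mem_univ _)
    rw [hf] at h1
    obtain ⟨k, -, hk⟩ := mem_image.1 h1
    have h2 : k = 0 := by
      have := congrArg Prod.snd hk
      simpa [hκ2] using this
    rw [h2, hk0, hk0] at hk
    exact (congrArg Prod.fst hk).symm
  refine ⟨univ.image fun x : ∀ i, A i => fun i => (x i, x i), (∀ i, A i) × Fin (s + 3),
    inferInstance, fun x => (x, 0), fun x => (x, 1), fun x => (x, 2), univ.image f, ?_, ?_, ?_, ?_⟩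
  · rw [card_image_of_injective, card_univ]
    intro x y h
    funext i
    exact congrArg Prod.fst (congrFun h i)
  · intro g hg
    obtain ⟨x, -, rfl⟩ := mem_image.1 hg
    refine ⟨hfc x, fun i => (x i, x i), mem_image_of_mem _ (mem_univ _),
      {(x, 0), (x, 1), (fun i => mul i (x i) (x i), 2)}, ?_, ?_, rfl⟩
    · intro z hz
      simp only [mem_insert, mem_singleton] at hz
      rw [hf]
      rcases hz with rfl | rfl | rfl
      · exact mem_image.2 ⟨0, mem_univ _, hk0 x⟩
      · exact mem_image.2 ⟨1, mem_univ _, hk1 x⟩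
      · exact mem_image.2 ⟨2, mem_univ _, hk2 x⟩
    · rw [card_eq_three]
      refine ⟨_, _, _, ?_, ?_, ?_, rfl⟩
      · intro h
        exact h01 (congrArg Prod.snd h)
      · intro h
        exact h02 (congrArg Prod.snd h)
      · intro h
        exact h12 (congrArg Prod.snd h)
  · rw [card_image_of_injective _ hfinj, card_image_of_injective]
    intro x y h
    funext i
    exact congrArg Prod.fst (congrFun h i)
  · intro S hS hSe
    obtain ⟨X, hX⟩ : ∃ X : Finset (∀ i, A i), X = univ.filter fun x => f x ∈ S := ⟨_, rfl⟩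
    have hXS : X.image f = S := by
      ext g
      constructor
      · intro hg
        obtain ⟨x, hx, rfl⟩ := mem_image.1 hg
        rw [hX] at hx
        exact (mem_filter.1 hx).2
      · intro hg
        obtain ⟨x, -, rfl⟩ := mem_image.1 (hS hg)
        refine mem_image_of_mem _ ?_
        rw [hX]
        exact mem_filter.2 ⟨mem_univ _, hg⟩
    have hXc : X.card = e := by
      rw [← hSe, ← hXS, card_image_of_injective _ hfinj]
    obtain ⟨x₀, hx₀⟩ : X.Nonempty := by
      rw [← card_pos]
      omega
    have hsub : insert ((fun i => mul i (x₀ i) (x₀ i), 2) : (∀ i, A i) × Fin (s + 3))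
        (X ×ˢ (univ.erase (2 : Fin (s + 3)))) ⊆ S.biUnion id := by
      intro z hz
      rw [mem_biUnion]
      rcases mem_insert.1 hz with rfl | hz
      · refine ⟨f x₀, ?_, ?_⟩
        · rw [← hXS]
          exact mem_image_of_mem _ hx₀
        · rw [id, hf]
          exact mem_image.2 ⟨2, mem_univ _, hk2 x₀⟩
      · obtain ⟨h1, h2⟩ := mem_product.1 hz
        refine ⟨f z.1, ?_, ?_⟩
        · rw [← hXS]
          exact mem_image_of_mem _ h1
        · rw [id, hf]
          refine mem_image.2 ⟨z.2, mem_univ _, ?_⟩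
          rw [hκ, if_neg (ne_of_mem_erase h2)]
    have h1 := card_le_card hsub
    rw [card_insert_of_notMem (by
      intro h
      exact ne_of_mem_erase (mem_product.1 h).2 rfl), card_product, hXc,
      card_erase_of_mem (mem_univ _), card_univ, Fintype.card_fin] at h1
    have e1 : s + 3 - 1 = s + 2 := by omega
    have e2 : s + 3 - 2 = s + 1 := by omega
    rw [e1] at h1
    rw [e2]
    nlinarith

end Pool.Agent.N389.QB
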